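import Pool.Agent.R19.QS.Eight
import Pool.Agent.Y920.ETC.Chain

/-! Quaternionic structures with many symbols: the number of elements which are not birigid. -/

set_option autoImplicit false

namespace Pool.Agent.N88.FR

open Pool.Agent.H315R3.ETC Pool.Agent.TH673.VG Pool.Agent.Y920.ETC

/-- biadditive maps `χ` to `Z/2` with `χ(a,-a) = 0` -/
def Sym0 (S : QData) : Submodule (ZMod 2) (S.G → S.G → ZMod 2) where
  carrier := {χ | (∀ a b c, χ (a * b) c = χ a c + χ b c) ∧ (∀ a b c, χ a (b * c) = χ a b + χ a c) ∧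
    ∀ a, χ a (S.neg * a) = 0}
  zero_mem' := by simp
  add_mem' := by
    rintro χ ψ ⟨h1, h2, h3⟩ ⟨k1, k2, k3⟩
    refine ⟨fun a b c => ?_, fun a b c => ?_, fun a => ?_⟩
    · show χ (a * b) c + ψ (a * b) c = (χ a c + ψ a c) + (χ b c + ψ b c)
      rw [h1, k1]; ring
    · show χ a (b * c) + ψ a (b * c) = (χ a b + ψ a b) + (χ a c + ψ a c)
      rw [h2, k2]; ring
    · show χ a (S.neg * a) + ψ a (S.neg * a) = 0
      rw [h3, k3, add_zero]
  smul_mem' := by
    rintro r χ ⟨h1, h2, h3⟩
    refine ⟨fun a b c => ?_, fun a b c => ?_, fun a => ?_⟩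
    · show r * χ (a * b) c = r * χ a c + r * χ b c
      rw [h1]; ring
    · show r * χ a (b * c) = r * χ a b + r * χ a c
      rw [h2]; ring
    · show r * χ a (S.neg * a) = 0
      rw [h3, mul_zero]

/-- symbols, as a subspace -/
def Sym (S : QData) : Submodule (ZMod 2) (Sym0 S) where
  carrier := {χ | ∀ a b, S.q a b = S.zero → χ.1 a b = 0}
  zero_mem' := by
    intro a b _
    rfl
  add_mem' := by
    rintro χ ψ h k a b hab
    show χ.1 a b + ψ.1 a b = 0
    rw [h a b hab, k a b hab, add_zero]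
  smul_mem' := by
    rintro r χ h a b hab
    show r * χ.1 a b = 0
    rw [h a b hab, mul_zero]

/-- `χ` is a symbol -/
def IsSy (S : QData) (χ : S.G → S.G → ZMod 2) : Prop :=
  (∀ a b c, χ (a * b) c = χ a c + χ b c) ∧ (∀ a b c, χ a (b * c) = χ a b + χ a c) ∧
    ∀ a b, S.q a b = S.zero → χ a b = 0

section
variable {S : QData} (h : IsQuat S)

include h in
lemma card_sym : Nat.card {χ : S.G → S.G → ZMod 2 // IsSy S χ} = Nat.card (Sym S) := by
  refine Nat.card_congr ⟨fun χ => ⟨⟨χ.1, χ.2.1, χ.2.2.1, fun a => χ.2.2.2 _ _ (h.qs1 a)⟩,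
    χ.2.2.2⟩, fun χ => ⟨χ.1.1, χ.1.2.1, χ.1.2.2.1, χ.2⟩, fun χ => rfl, fun χ => rfl⟩

variable {χ : S.G → S.G → ZMod 2} (hχ : χ ∈ Sym0 S)

include hχ

lemma s_one (a : S.G) : χ a 1 = 0 := by
  have := hχ.2.1 a 1 1
  rw [mul_one] at this
  exact left_eq_add.1 this

lemma s_one' (a : S.G) : χ 1 a = 0 := by
  have := hχ.1 1 1 a
  rw [mul_one] at this
  exact left_eq_add.1 this

lemma s_self (a : S.G) : χ a a = χ a S.neg := by
  have := hχ.2.2 a
  rw [hχ.2.1] at this
  have h02 : ∀ u v : ZMod 2, u + v = 0 → v = u := by decide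
  exact h02 _ _ this

lemma s_comm (a b : S.G) : χ a b = χ b a := by
  have e1 := s_self hχ (a * b)
  rw [hχ.1, hχ.2.1, hχ.2.1, hχ.1, ← s_self hχ, ← s_self hχ] at e1
  have h02 : ∀ u v w z : ZMod 2, u + v + (w + z) = u + z → v = w := by decide
  exact h02 _ _ _ _ e1

lemma s_ext (s : Set S.G) (hs : Subgroup.closure s = ⊤) (h0 : ∀ a ∈ s, ∀ b ∈ s, χ a b = 0) :
    χ = 0 := by
  have e1 : ∀ a ∈ s, ∀ b, χ a b = 0 := by
    intro a ha b
    have hb : b ∈ Subgroup.closure s := by rw [hs]; trivial
    induction hb using Subgroup.closure_induction with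
    | mem x hx => exact h0 a ha x hx
    | one => exact s_one hχ a
    | mul x y _ _ h1 h2 => rw [hχ.2.1, h1, h2, add_zero]
    | inv x _ h1 =>
      have := hχ.2.1 a x x⁻¹
      rw [mul_inv_cancel, s_one hχ, h1, zero_add] at this
      exact this.symm
  funext a b
  have ha : a ∈ Subgroup.closure s := by rw [hs]; trivial
  show χ a b = 0
  induction ha using Subgroup.closure_induction with
  | mem x hx => exact e1 x hx b
  | one => exact s_one' hχ b
  | mul x y _ _ h1 h2 => rw [hχ.1, h1, h2, add_zero]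
  | inv x _ h1 =>
    have := hχ.1 x x⁻¹ b
    rw [mul_inv_cancel, s_one' hχ, h1, zero_add] at this
    exact this.symm

end

section
variable {S : QData} (h : IsQuat S) [Finite S.G]

include h

/-- a generating family, the first element being `-1` if `-1 ≠ 1` -/
lemma exists_gen (n : ℕ) (hn : Nat.card S.G = 2 ^ n) :
    ∃ (ι : Type) (_ : Fintype ι) (b : ι → S.G), Fintype.card ι = n ∧
      Subgroup.closure (Set.range b) = ⊤ ∧ (S.neg ≠ 1 → ∃ i, b i = S.neg) := by
  classical
  let _ : Module (ZMod 2) (Additive S.G) := AddCommGroup.zmodModule (n := 2) (by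
    intro x
    rw [two_nsmul]
    exact h.exp2 x.toMul)
  have hfin : Module.Finite (ZMod 2) (Additive S.G) := Module.Finite.of_finite
  have hcl : ∀ {ι : Type} (b : Module.Basis ι (ZMod 2) (Additive S.G)),
      Subgroup.closure (Set.range fun i => (b i).toMul) = (⊤ : Subgroup S.G) := by
    intro ι b
    set K : Subgroup S.G := Subgroup.closure (Set.range fun i => (b i).toMul) with hK
    let K' : Submodule (ZMod 2) (Additive S.G) := AddSubgroup.toZModSubmodule 2 K.toAddSubgroup
    have h1 : Submodule.span (ZMod 2) (Set.range b) ≤ K' := by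
      rw [Submodule.span_le]
      rintro _ ⟨i, rfl⟩
      have h3 : (b i).toMul ∈ K := Subgroup.subset_closure ⟨i, rfl⟩
      exact h3
    rw [b.span_eq] at h1
    rw [eq_top_iff]
    intro x _
    have h2 : (Additive.ofMul x : Additive S.G) ∈ (⊤ : Submodule (ZMod 2) (Additive S.G)) := trivial
    exact h1 h2
  have hrank : Module.finrank (ZMod 2) (Additive S.G) = n := by
    have h2 := Module.natCard_eq_pow_finrank (K := ZMod 2) (V := Additive S.G)
    rw [Nat.card_zmod] at h2
    have h3 : Nat.card (Additive S.G) = 2 ^ n := hn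
    rw [h3] at h2
    exact (Nat.pow_right_injective le_rfl h2).symm
  by_cases hne : S.neg = 1
  · let b := Module.finBasis (ZMod 2) (Additive S.G)
    exact ⟨_, inferInstance, fun i => (b i).toMul, by rw [Fintype.card_fin, hrank], hcl b,
      fun hc => absurd hne hc⟩
  · have hli : LinearIndepOn (ZMod 2) id ({Additive.ofMul S.neg} : Set (Additive S.G)) := by
      refine LinearIndepOn.singleton ?_
      intro hc
      exact hne hc
    let b := Module.Basis.extend hli
    have hf : Finite (hli.extend (Set.subset_univ _)) := Module.Finite.finite_basis b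
    have hft : Fintype (hli.extend (Set.subset_univ _)) := Fintype.ofFinite _
    refine ⟨_, hft, fun i => (b i).toMul, ?_, hcl b, fun _ => ?_⟩
    · rw [← hrank, Module.finrank_eq_card_basis b]
    · refine ⟨⟨Additive.ofMul S.neg, hli.subset_extend _ rfl⟩, ?_⟩
      simp [b, Module.Basis.extend_apply_self]

theorem card_sym0 (n : ℕ) (hn : Nat.card S.G = 2 ^ n) :
    Nat.card (Sym0 S) ≤ 2 ^ (n.choose 2 + 1) ∧
      (S.neg = 1 → Nat.card (Sym0 S) ≤ 2 ^ n.choose 2) := by
  classical
  obtain ⟨ι, _, b, hc, hcl, hb⟩ := exists_gen h n hn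
  let D := {z : Sym2 ι // ¬ z.IsDiag}
  have hD : Fintype.card D = n.choose 2 := by
    rw [← hc]
    exact Sym2.card_subtype_not_diag
  let f : Sym0 S → (D → ZMod 2) := fun χ z =>
    Sym2.lift ⟨fun i j => χ.1 (b i) (b j), fun i j => s_comm χ.2 _ _⟩ z.1
  have hf : ∀ χ : Sym0 S, ∀ ψ : Sym0 S, f χ = f ψ → ∀ i j, i ≠ j → χ.1 (b i) (b j) = ψ.1 (b i) (b j) := by
    intro χ ψ e i j hij
    exact congrFun e ⟨s(i, j), by simpa using hij⟩
  have key : ∀ χ ψ : Sym0 S, (∀ i j, χ.1 (b i) (b j) = ψ.1 (b i) (b j)) → χ = ψ := by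
    intro χ ψ e
    have h1 : (χ - ψ : Sym0 S).1 = 0 := by
      refine s_ext (χ - ψ).2 _ hcl ?_
      rintro _ ⟨i, rfl⟩ _ ⟨j, rfl⟩
      show χ.1 (b i) (b j) - ψ.1 (b i) (b j) = 0
      rw [e, sub_self]
    exact sub_eq_zero.1 (Subtype.ext h1)
  constructor
  · have hinj : Function.Injective (fun χ : Sym0 S => (f χ, χ.1 S.neg S.neg)) := by
      intro χ ψ e
      obtain ⟨e1, e2⟩ := Prod.mk.inj e
      refine key χ ψ fun i j => ?_
      by_cases hij : i = j
      · subst hij
        by_cases hne : S.neg = 1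
        · rw [s_self χ.2, s_self ψ.2, hne, s_one χ.2, s_one ψ.2]
        · obtain ⟨k, hk⟩ := hb hne
          by_cases hik : i = k
          · rw [hik, hk]
            exact e2
          · rw [s_self χ.2, s_self ψ.2, ← hk]
            exact hf _ _ e1 i k hik
      · exact hf _ _ e1 i j hij
    have h1 := Nat.card_le_card_of_injective _ hinj
    refine h1.trans (le_of_eq ?_)
    rw [Nat.card_prod, Nat.card_fun, Nat.card_zmod, Nat.card_eq_fintype_card, hD, pow_succ]
  · intro hne
    have hinj : Function.Injective f := by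
      intro χ ψ e
      refine key χ ψ fun i j => ?_
      by_cases hij : i = j
      · subst hij
        rw [s_self χ.2, s_self ψ.2, hne, s_one χ.2, s_one ψ.2]
      · exact hf _ _ e i j hij
    have h1 := Nat.card_le_card_of_injective _ hinj
    refine h1.trans (le_of_eq ?_)
    rw [Nat.card_fun, Nat.card_zmod, Nat.card_eq_fintype_card, hD]

end

end Pool.Agent.N88.FR
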