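import Pool.Agent.N88.FR.Main
import Pool.Agent.Y920.ETC.FieldR

/-! Structures with many symbols are of elementary type. -/

set_option autoImplicit false

namespace Pool.Agent.N88.FR

open Pool.Agent.H315R3.ETC Pool.Agent.TH673.VG Pool.Agent.Y920.ETC Pool.Agent.R19.QS

variable {S : QData}

lemma numSy_pos (S : QData) [Finite S.G] : 0 < numSy S := by
  have : Nonempty {χ : S.G → S.G → ZMod 2 // IsSy S χ} :=
    ⟨⟨fun _ _ => 0, fun _ _ _ => by simp, fun _ _ _ => by simp, fun _ _ _ => rfl⟩⟩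
  exact Nat.card_pos

/-- the basic part has at most `2 ^ m` elements -/
theorem card_of_sy (h : IsQuat S) [Finite S.G] {n : ℕ} (hn : Nat.card S.G = 2 ^ n) (m : ℕ)
    (hs : 2 ^ (n.choose 2 + 3) ≤ 2 ^ m * numSy S ∨
      S.neg = 1 ∧ 2 ^ (n.choose 2 + 1) ≤ 2 ^ m * numSy S) :
    ∃ (K : Subgroup S.G) (hneg : S.neg ∈ K) (k : ℕ), IsQuat (restrN S K hneg) ∧
      Nat.card K ≤ 2 ^ m ∧ Iso (ext^[k] (restrN S K hneg)) S := by
  obtain ⟨K, hneg, k, h1, h2, h3, -, h4⟩ := iter_sy h hn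
  refine ⟨K, hneg, k, h1, ?_, h4⟩
  have hp := numSy_pos S
  rcases hs with hs | ⟨hne, hs⟩
  · exact Nat.le_of_mul_le_mul_right (h2.trans hs) hp
  · exact Nat.le_of_mul_le_mul_right ((h3 hne).trans hs) hp

theorem elem_of_sy (h : IsQuat S) [Finite S.G] {n : ℕ} (hn : Nat.card S.G = 2 ^ n)
    (hs : 2 ^ (n.choose 2 + 3) ≤ 2 ^ 4 * numSy S ∨
      S.neg = 1 ∧ 2 ^ (n.choose 2 + 1) ≤ 2 ^ 4 * numSy S) : Elem S := by
  obtain ⟨K, hneg, k, h1, h2, h3⟩ := card_of_sy h hn 4 hs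
  have : Finite (restrN S K hneg).G := inferInstanceAs (Finite K)
  exact Elem.iso _ _ (elem_iter (elem_sixteen h1 h2) k) h3

theorem elem_of_sy' (h : IsQuat S) [Finite S.G] {B : Type*} [AddCommGroup B]
    {β : S.G → S.G → B} (hB : Pool.Agent.N88.ETC.Add S β) {n : ℕ} (hn : Nat.card S.G = 2 ^ n)
    (hs : 2 ^ (n.choose 2 + 3) ≤ 2 ^ 5 * numSy S ∨
      S.neg = 1 ∧ 2 ^ (n.choose 2 + 1) ≤ 2 ^ 5 * numSy S) : Elem S := by
  obtain ⟨K, hneg, k, h1, h2, h3⟩ := card_of_sy h hn 5 hs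
  have : Finite (restrN S K hneg).G := inferInstanceAs (Finite K)
  have hB' : Pool.Agent.N88.ETC.Add (restrN S K hneg) (fun a b => β a.1 b.1) :=
    ⟨hB.two, fun a b c => hB.mul a.1 b.1 c.1, fun a b c d => hB.eq a.1 b.1 c.1 d.1⟩
  exact Elem.iso _ _ (elem_iter (elem_thirtytwo h1 hB' h2) k) h3

end Pool.Agent.N88.FR
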