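import Pool.Agent.N88.FR.Elem
import Pool.Agent.N88.ETC.Field
import Pool.Agent.TH188.ET.K2
import Pool.Agent.Y620.ET.Res

/-! Steinberg symbols of fields. -/

set_option autoImplicit false

namespace Pool.Agent.N88.FR

open Pool.Agent.H315R3.ETC Pool.Agent.TH673.VG Pool.Agent.Y920.ETC Pool.Agent.R19.QS
open Pool.Agent.TH188.ET

universe u

variable {F : Type u} [Field F]

/-- Steinberg symbols with values in `Z/2` -/
structure IsSt (F : Type u) [Field F] (c : Fˣ → Fˣ → ZMod 2) : Prop where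
  ml : ∀ a b x : Fˣ, c (a * b) x = c a x + c b x
  mr : ∀ x a b : Fˣ, c x (a * b) = c x a + c x b
  st : ∀ x y : Fˣ, (x : F) + y = 1 → c x y = 0

section
variable {c : Fˣ → Fˣ → ZMod 2} (h : IsSt F c)

include h

lemma st_one (a : Fˣ) : c a 1 = 0 := by
  have := h.mr a 1 1
  rw [mul_one] at this
  exact left_eq_add.1 this

lemma st_one' (a : Fˣ) : c 1 a = 0 := by
  have := h.ml 1 1 a
  rw [mul_one] at this
  exact left_eq_add.1 this

lemma st_sq (a b d : Fˣ) : c a (b * d ^ 2) = c a b := by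
  rw [h.mr, pow_two, h.mr, CharTwo.add_self_eq_zero, add_zero]

lemma st_sq' (a b d : Fˣ) : c (a * d ^ 2) b = c a b := by
  rw [h.ml, pow_two, h.ml, CharTwo.add_self_eq_zero, add_zero]

lemma st_inv (a b : Fˣ) : c a⁻¹ b = c a b := by
  have e : a⁻¹ = a * (a⁻¹) ^ 2 := by
    rw [pow_two, ← mul_assoc, mul_inv_cancel, one_mul]
  rw [e, st_sq' h]

lemma st_neg (a : Fˣ) : c a (-a) = 0 := by
  by_cases h1 : (a : F) = 1
  · have : a = 1 := by ext; exact h1
    rw [this, st_one' h]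
  · have h2 : (1 : F) - a ≠ 0 := sub_ne_zero.mpr (Ne.symm h1)
    have ha : (a : F) ≠ 0 := a.ne_zero
    have h3 : (1 : F) - (a : F)⁻¹ ≠ 0 := by
      intro h
      apply h1
      have : (a : F)⁻¹ = 1 := by linear_combination -h
      exact inv_eq_one.mp this
    have e : Units.mk0 _ h2 = -a * Units.mk0 _ h3 := by
      ext
      simp only [Units.val_mk0, Units.val_mul, Units.val_neg]
      field_simp
      ring
    have s1 : c a (Units.mk0 _ h2) = 0 := h.st _ _ (by simp)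
    have s2 : c a⁻¹ (Units.mk0 _ h3) = 0 := h.st _ _ (by simp)
    rw [st_inv h] at s2
    rw [e, h.mr, s2, add_zero] at s1
    exact s1

lemma st_norm (a d : Fˣ) (hn : NormFrom a d) : c a d = 0 := by
  obtain ⟨x, y, hn⟩ := hn
  by_cases hy : y = 0
  · subst hy
    have hx : x ≠ 0 := by
      rintro rfl
      apply d.ne_zero
      rw [hn]; ring
    have e : d = 1 * (Units.mk0 x hx) ^ 2 := by
      ext
      simp only [one_mul, Units.val_pow_eq_pow_val, Units.val_mk0]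
      rw [hn]; ring
    rw [e, st_sq h, st_one h]
  · by_cases hx : x = 0
    · subst hx
      have e : d = -a * (Units.mk0 y hy) ^ 2 := by
        ext
        simp only [Units.val_mul, Units.val_neg, Units.val_pow_eq_pow_val, Units.val_mk0]
        rw [hn]; ring
      rw [e, st_sq h, st_neg h]
    · set X := Units.mk0 x hx with hX
      set Y := Units.mk0 y hy with hY
      have h1 : c (a * (Y * X⁻¹) ^ 2) (d * (X⁻¹) ^ 2) = 0 := by
        apply h.st
        simp only [Units.val_mul, Units.val_pow_eq_pow_val, Units.val_inv_eq_inv_val]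
        rw [hn, hX, hY, Units.val_mk0, Units.val_mk0]
        field_simp
        ring
      rwa [st_sq' h, st_sq h] at h1

end

/-- the symbols of a field are those of its structure -/
theorem num_eq {S : QData} {φ : Fˣ →* S.G} (hs : Function.Surjective φ)
    (hk : ∀ a : Fˣ, φ a = 1 ↔ ∃ b : Fˣ, a = b ^ 2)
    (hz : ∀ a b : Fˣ, S.q (φ a) (φ b) = S.zero ↔ NormFrom a b) :
    Nat.card {c : Fˣ → Fˣ → ZMod 2 // IsSt F c} = numSy S := by
  have hinv : ∀ c : Fˣ → Fˣ → ZMod 2, IsSt F c → ∀ a b a' b' : Fˣ, φ a = φ a' → φ b = φ b' →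
      c a b = c a' b' := by
    intro c hc a b a' b' h1 h3
    have key : ∀ x x' : Fˣ, φ x = φ x' → ∃ d : Fˣ, x = x' * d ^ 2 := by
      intro x x' e
      have : φ (x * x'⁻¹) = 1 := by rw [map_mul, map_inv, e, mul_inv_cancel]
      obtain ⟨d, hd⟩ := (hk _).1 this
      refine ⟨d, ?_⟩
      rw [← hd, mul_comm x x'⁻¹, mul_inv_cancel_left]
    obtain ⟨d, rfl⟩ := key _ _ h1
    obtain ⟨d', rfl⟩ := key _ _ h3
    rw [st_sq hc, st_sq' hc]
  choose r hr using hs
  refine Nat.card_congr ⟨fun c => ⟨fun g k => c.1 (r g) (r k), ?_, ?_, ?_⟩,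
    fun χ => ⟨fun a b => χ.1 (φ a) (φ b), ?_, ?_, ?_⟩, ?_, ?_⟩
  · intro a b x
    show c.1 (r (a * b)) (r x) = c.1 (r a) (r x) + c.1 (r b) (r x)
    rw [← c.2.ml]
    refine hinv c.1 c.2 _ _ _ _ ?_ rfl
    rw [map_mul, hr, hr, hr]
  · intro x a b
    show c.1 (r x) (r (a * b)) = c.1 (r x) (r a) + c.1 (r x) (r b)
    rw [← c.2.mr]
    refine hinv c.1 c.2 _ _ _ _ rfl ?_
    rw [map_mul, hr, hr, hr]
  · intro a b hab
    show c.1 (r a) (r b) = 0
    refine st_norm c.2 _ _ ((hz _ _).1 ?_)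
    rwa [hr, hr]
  · intro a b x
    show χ.1 (φ (a * b)) (φ x) = _
    rw [map_mul, χ.2.1]
  · intro x a b
    show χ.1 (φ x) (φ (a * b)) = _
    rw [map_mul, χ.2.2.1]
  · intro x y hxy
    refine χ.2.2.2 _ _ ((hz _ _).2 ⟨1, 1, ?_⟩)
    linear_combination hxy
  · intro c
    ext a b
    exact hinv c.1 c.2 _ _ _ _ (hr _) (hr _)
  · intro χ
    ext g k
    show χ.1 (φ (r g)) (φ (r k)) = χ.1 g k
    rw [hr, hr]

/-- fields whose basic part has index at least three: reduction to the residue field -/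
theorem reduceB {F : Type} [Field F] (h2 : (2 : F) ≠ 0) {S : QData} (hS : IsStructureOf F S)
    (hSf : Finite S.G) (hSq : IsQuat S) (B : Subgroup S.G) (hB : ∀ a : S.G, a ∈ B ↔ ¬ Bi S a)
    (hidx : 2 * Nat.card B < Nat.card S.G) :
    ∃ O : ValuationSubring F, Sqr O ∧
      (∃ c : Fˣ, ∀ f : Fˣ, ¬ (((c * f ^ 2 : Fˣ) : F) ∈ O ∧ (((c * f ^ 2)⁻¹ : Fˣ) : F) ∈ O)) ∧
      (2 : IsLocalRing.ResidueField O) ≠ 0 ∧
      (sqG (IsLocalRing.ResidueField O)).index ≤ 2 * Nat.card B ∧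
      ∃ (k : ℕ) (T : QData), 1 ≤ k ∧ 2 ^ k * (sqG (IsLocalRing.ResidueField O)).index =
        (sqG F).index ∧ IsStructureOf (IsLocalRing.ResidueField O) T ∧
        IsStructureOf F (ext^[k] T) := by
  have hS' := hS
  obtain ⟨φ, hs, hk, hn, h0, hq⟩ := hS
  have hcard : Nat.card S.G = (sqG F).index := card_eq hs hk
  obtain ⟨O, hO, hOc, hc⟩ := exists_val hs hk hn h0 hq h2 B hB hidx
  obtain ⟨h2k, hstr, hbi⟩ := Pool.Agent.Y620.ET.t_RES F O hO S φ hs hk hn h0 hq
  have hneg : S.neg ∈ O.unitGroup.map φ := by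
    by_contra hc'
    exact (hbi _ hc').2.1 rfl
  have hfK : Finite (restrN S (O.unitGroup.map φ) hneg).G :=
    inferInstanceAs (Finite (O.unitGroup.map φ))
  obtain ⟨k, hk1, hk2⟩ := chain _ S hSq hSf le_rfl (O.unitGroup.map φ) hneg hbi
  obtain ⟨ψ, hs', hk', hn', h0', hq'⟩ := hstr hneg
  have hcκ : Nat.card (O.unitGroup.map φ) = (sqG (IsLocalRing.ResidueField O)).index :=
    card_eq hs' hk'
  have hpos : 0 < Nat.card (O.unitGroup.map φ) := Nat.card_pos
  refine ⟨O, hO, hc, h2k, by omega, k, restrN S (O.unitGroup.map φ) hneg, ?_, ?_,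
    hstr hneg, ?_⟩
  · by_contra hk0
    have hk0' : k = 0 := by omega
    rw [hk0', pow_zero, one_mul] at hk1
    omega
  · rw [← hcκ, hk1, hcard]
  · refine structure_iso hS' (Pool.Agent.Y920.ETC.iso_symm hk2) ?_
    have h1q : (restrN S (O.unitGroup.map φ) hneg).q 1 1 =
        (restrN S (O.unitGroup.map φ) hneg).zero := h0
    have : ∀ (k : ℕ) (T : QData), T.q 1 1 = T.zero → (ext^[k] T).q 1 1 = (ext^[k] T).zero := by
      intro k T hT
      induction k with
      | zero => exact hT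
      | succ k ih =>
        rw [Function.iterate_succ_apply']
        show (((ext^[k] T).q 1 1, pw (pw (ext^[k] T).neg 1) 1 * pw 1 1 * pw 1 1) :
          (ext^[k] T).Q × (ext^[k] T).G) = ((ext^[k] T).zero, 1)
        rw [ih]
        simp [pw]
    exact this k _ h1q

/-- the basic part of a field with many Steinberg symbols, a valuation -/
theorem field_val {F : Type} [Field F] (h2 : (2 : F) ≠ 0) {n : ℕ} (hn : (sqG F).index = 2 ^ n)
    {e : ℕ} (he : n.choose 2 + 3 ≤ e ∨ IsSquare (-1 : F) ∧ n.choose 2 + 1 ≤ e)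
    (hs : 2 * 2 ^ e < 2 ^ n * Nat.card {c : Fˣ → Fˣ → ZMod 2 // IsSt F c}) :
    ∃ O : ValuationSubring F, Sqr O ∧
      (∃ c : Fˣ, ∀ f : Fˣ, ¬ (((c * f ^ 2 : Fˣ) : F) ∈ O ∧ (((c * f ^ 2)⁻¹ : Fˣ) : F) ∈ O)) ∧
      (2 : IsLocalRing.ResidueField O) ≠ 0 ∧
      (sqG (IsLocalRing.ResidueField O)).index *
        Nat.card {c : Fˣ → Fˣ → ZMod 2 // IsSt F c} ≤ 2 * 2 ^ e ∧
      ∃ (k : ℕ) (T : QData), 1 ≤ k ∧ 2 ^ k * (sqG (IsLocalRing.ResidueField O)).index =
        (sqG F).index ∧ IsStructureOf (IsLocalRing.ResidueField O) T ∧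
        IsStructureOf F (ext^[k] T) := by
  obtain ⟨S, hS, hSf, hSq⟩ := exists_structure h2 (finSq_of_index (by rw [hn]; positivity))
  have hS' := hS
  obtain ⟨φ, hs', hk, hneg, h0, hq⟩ := hS
  have hcard : Nat.card S.G = (sqG F).index := card_eq hs' hk
  have hnum := num_eq hs' hk (q_zero h0 hq h2)
  rw [hnum] at hs ⊢
  obtain ⟨B, hB⟩ := Pool.Agent.Y67.ET.t_BASIC S hSq
  have hBs : Nat.card B * numSy S ≤ 2 ^ e := by
    obtain ⟨h3, h4⟩ := card_basic_sy hSq (hcard.trans hn) B hB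
    rcases he with he | ⟨hsq, he⟩
    · exact h3.trans (Nat.pow_le_pow_right (by norm_num) he)
    · refine (h4 ?_).trans (Nat.pow_le_pow_right (by norm_num) he)
      rw [← hneg, hk]
      obtain ⟨r, hr⟩ := hsq
      have hr0 : r ≠ 0 := by
        rintro rfl
        rw [mul_zero] at hr
        exact one_ne_zero (neg_eq_zero.1 hr)
      refine ⟨Units.mk0 r hr0, ?_⟩
      ext
      rw [Units.val_neg, Units.val_one, Units.val_pow_eq_pow_val, Units.val_mk0, hr, pow_two]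
  have hidx : 2 * Nat.card B < Nat.card S.G := by
    rw [hcard, hn]
    by_contra hcon
    push Not at hcon
    have h5 := Nat.mul_le_mul_right (numSy S) hcon
    have h6 : 2 * Nat.card B * numSy S = 2 * (Nat.card B * numSy S) := by ring
    rw [h6] at h5
    omega
  obtain ⟨O, h5, h6, h7, h8, h9⟩ := reduceB h2 hS' hSf hSq B hB hidx
  refine ⟨O, h5, h6, h7, ?_, h9⟩
  calc _ ≤ 2 * Nat.card B * numSy S := Nat.mul_le_mul_right _ h8
    _ = 2 * (Nat.card B * numSy S) := by ring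
    _ ≤ _ := Nat.mul_le_mul_left _ hBs

/-- fields with many Steinberg symbols -/
theorem field_elem (h2 : (2 : F) ≠ 0) {n : ℕ}
    (hn : ((powMonoidHom 2 : Fˣ →* Fˣ).range).index = 2 ^ n)
    (hs : 2 ^ n.choose 2 ≤ 4 * Nat.card {c : Fˣ → Fˣ → ZMod 2 // IsSt F c} ∨
      IsSquare (-1 : F) ∧ 2 ^ n.choose 2 ≤ 16 * Nat.card {c : Fˣ → Fˣ → ZMod 2 // IsSt F c}) :
    ∃ S : QData, Elem S ∧ IsStructureOf F S := by
  have hfin : FinSq F := by
    have : Finite (Fˣ ⧸ (powMonoidHom 2 : Fˣ →* Fˣ).range) := by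
      by_contra hc
      rw [not_finite_iff_infinite] at hc
      have : ((powMonoidHom 2 : Fˣ →* Fˣ).range).index = 0 := Nat.card_eq_zero_of_infinite
      rw [hn] at this
      exact (pow_pos (by norm_num : 0 < 2) n).ne' this
    exact this
  obtain ⟨S, hS, hSf, hSq, ⟨β, hβ⟩, -⟩ := Pool.Agent.N88.ETC.field_add h2 hfin
  obtain ⟨φ, hs', hk, hneg, h0, hq⟩ := id hS
  have hz : ∀ a b : Fˣ, S.q (φ a) (φ b) = S.zero ↔ NormFrom a b := by
    intro a b
    rw [← qiso_one h2, ← h0, ← map_one φ]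
    exact hq a b 1 1
  have hcard : Nat.card S.G = 2 ^ n := by
    rw [← hn]
    have hker : φ.ker = (powMonoidHom 2 : Fˣ →* Fˣ).range := by
      ext a
      rw [MonoidHom.mem_ker, hk, MonoidHom.mem_range]
      constructor
      · rintro ⟨b, rfl⟩; exact ⟨b, rfl⟩
      · rintro ⟨b, rfl⟩; exact ⟨b, rfl⟩
    rw [← hker, Subgroup.index_ker, MonoidHom.range_eq_top.2 hs', Subgroup.card_top]
  have hnum := num_eq hs' hk hz
  rw [hnum] at hs
  refine ⟨S, elem_of_sy' hSq hβ hcard ?_, hS⟩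
  have e3 : 2 ^ (n.choose 2 + 3) = 8 * 2 ^ n.choose 2 := by rw [pow_add]; ring
  have e1 : 2 ^ (n.choose 2 + 1) = 2 * 2 ^ n.choose 2 := by rw [pow_add]; ring
  rcases hs with hs | ⟨hsq, hs⟩
  · left
    rw [e3]
    omega
  · right
    refine ⟨?_, by rw [e1]; omega⟩
    rw [← hneg, hk]
    obtain ⟨r, hr⟩ := hsq
    have hr0 : r ≠ 0 := by
      rintro rfl
      rw [mul_zero] at hr
      exact one_ne_zero (neg_eq_zero.1 hr)
    refine ⟨Units.mk0 r hr0, ?_⟩
    ext
    rw [Units.val_neg, Units.val_one, Units.val_pow_eq_pow_val, Units.val_mk0, hr, pow_two]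

end Pool.Agent.N88.FR
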