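import Pool.Agent.N88.FR.Sep
import Pool.Agent.N88.ETC.Sixteen
import Pool.Agent.Y920.ETC.Small

/-! Quaternionic structures with many symbols are iterated group extensions of small structures. -/

set_option autoImplicit false

namespace Pool.Agent.N88.FR

open Pool.Agent.H315R3.ETC Pool.Agent.TH673.VG Pool.Agent.Y920.ETC Pool.Agent.R19.QS

/-- the number of symbols -/
noncomputable def numSy (S : QData) : ℕ := Nat.card {χ : S.G → S.G → ZMod 2 // IsSy S χ}

section
variable {S : QData} (h : IsQuat S)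

lemma nr_of_not_hr {a : S.G} (ha : a ≠ 1) (hr : ¬ Hr S a) : a ∈ NR S := by
  rw [Hr] at hr
  push Not at hr
  obtain ⟨e, he, h1, h2⟩ := hr
  exact ⟨ha, e, he, ha, h1, h2⟩

variable [Finite S.G]

include h

theorem card_basic_sy {n : ℕ} (hn : Nat.card S.G = 2 ^ n) (B : Subgroup S.G)
    (hB : ∀ a : S.G, a ∈ B ↔ ¬ Bi S a) :
    Nat.card B * numSy S ≤ 2 ^ (n.choose 2 + 3) ∧
      (S.neg = 1 → Nat.card B * numSy S ≤ 2 ^ (n.choose 2 + 1)) := by
  classical
  have hfin : Finite (S.G → S.G → ZMod 2) := inferInstance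
  have hfin0 : Finite (Sym0 S) := inferInstance
  have hfinq : Finite (Sym0 S ⧸ Sym S) :=
    Finite.of_surjective _ (Submodule.Quotient.mk_surjective (Sym S))
  have hfm : Module.Finite (ZMod 2) (Sym0 S ⧸ Sym S) := Module.Finite.of_finite
  obtain ⟨h0, h0'⟩ := card_sym0 h n hn
  have hNR := card_NR h
  set D := Nat.card (Sym0 S ⧸ Sym S) with hD
  have hDpow : ∃ d, D = 2 ^ d := by
    refine ⟨Module.finrank (ZMod 2) (Sym0 S ⧸ Sym S), ?_⟩
    rw [hD, Module.natCard_eq_pow_finrank (K := ZMod 2) (V := Sym0 S ⧸ Sym S), Nat.card_zmod]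
  have hM : Nat.card (Sym0 S) = numSy S * D := by
    rw [Submodule.card_eq_card_quotient_mul_card (Sym S), ← card_sym h, numSy, mul_comm]
  obtain ⟨b, hb⟩ := card_pow_sub h B
  obtain ⟨d, hd⟩ := hDpow
  have hcardB : (B : Set S.G).ncard = Nat.card B := rfl
  have himg : ((fun a => S.neg * a) '' NR S).ncard ≤ (NR S).ncard :=
    Set.ncard_image_le (Set.toFinite _)
  have key : ∀ a ∈ B, a ≠ 1 → a ≠ S.neg → a ∈ NR S ∨ S.neg * a ∈ NR S := by
    intro a ha h1 h2
    have h3 := (hB a).1 ha
    have h4 : ¬ Hr S a ∨ ¬ Hr S (S.neg * a) := by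
      by_contra hc
      push Not at hc
      exact h3 ⟨h1, h2, hc.1, hc.2⟩
    rcases h4 with h4 | h4
    · exact Or.inl (nr_of_not_hr h1 h4)
    · refine Or.inr (nr_of_not_hr (fun hc => h2 ?_) h4)
      rw [← mul_one S.neg, ← hc, mulc h]
  have e1 : 2 ^ (n.choose 2 + 3) = 4 * 2 ^ (n.choose 2 + 1) := by
    rw [pow_succ, pow_succ, pow_succ]; ring
  have e2 : 2 ^ (n.choose 2 + 1) = 2 * 2 ^ n.choose 2 := by
    rw [pow_succ]; ring
  constructor
  · have hsub : (B : Set S.G) ⊆ ({1, S.neg} : Set S.G) ∪ (NR S ∪ (fun a => S.neg * a) '' NR S) := by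
      intro a ha
      by_cases h1 : a = 1
      · exact Or.inl (Or.inl h1)
      by_cases h2 : a = S.neg
      · exact Or.inl (Or.inr h2)
      right
      rcases key a ha h1 h2 with h3 | h3
      · exact Or.inl h3
      · exact Or.inr ⟨S.neg * a, h3, mulc h _ _⟩
    have h1 := Set.ncard_le_ncard hsub (Set.toFinite _)
    have h2 := Set.ncard_union_le ({1, S.neg} : Set S.G) (NR S ∪ (fun a => S.neg * a) '' NR S)
    have h3 := Set.ncard_union_le (NR S) ((fun a => S.neg * a) '' NR S)
    have h4 : ({1, S.neg} : Set S.G).ncard ≤ 2 := Set.ncard_insert_le _ _ |>.trans (by simp)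
    have h5 : Nat.card B ≤ 4 * D := by
      have h6 : 2 ^ b < 2 ^ (d + 3) := by
        rw [← hb, pow_add, ← hd]
        omega
      have h7 : b ≤ d + 2 := by
        have := (Nat.pow_lt_pow_iff_right (by norm_num : 1 < 2)).1 h6
        omega
      rw [hb, hd]
      calc 2 ^ b ≤ 2 ^ (d + 2) := Nat.pow_le_pow_right (by norm_num) h7
        _ = 4 * 2 ^ d := by rw [pow_add]; ring
    calc Nat.card B * numSy S ≤ 4 * D * numSy S := Nat.mul_le_mul_right _ h5
      _ = 4 * Nat.card (Sym0 S) := by rw [hM]; ring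
      _ ≤ 4 * 2 ^ (n.choose 2 + 1) := Nat.mul_le_mul_left _ h0
      _ = 2 ^ (n.choose 2 + 3) := e1.symm
  · intro hne
    have hsub : (B : Set S.G) ⊆ ({1} : Set S.G) ∪ NR S := by
      intro a ha
      by_cases h1 : a = 1
      · exact Or.inl h1
      right
      rcases key a ha h1 (by rwa [hne]) with h3 | h3
      · exact h3
      · rwa [hne, one_mul] at h3
    have h1 := Set.ncard_le_ncard hsub (Set.toFinite _)
    have h2 := Set.ncard_union_le ({1} : Set S.G) (NR S)
    rw [Set.ncard_singleton] at h2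
    have h5 : Nat.card B ≤ 2 * D := by
      have h6 : 2 ^ b < 2 ^ (d + 2) := by
        rw [← hb, pow_add, ← hd]
        omega
      have h7 : b ≤ d + 1 := by
        have := (Nat.pow_lt_pow_iff_right (by norm_num : 1 < 2)).1 h6
        omega
      rw [hb, hd]
      calc 2 ^ b ≤ 2 ^ (d + 1) := Nat.pow_le_pow_right (by norm_num) h7
        _ = 2 * 2 ^ d := by rw [pow_add]; ring
    calc Nat.card B * numSy S ≤ 2 * D * numSy S := Nat.mul_le_mul_right _ h5
      _ = 2 * Nat.card (Sym0 S) := by rw [hM]; ring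
      _ ≤ 2 * 2 ^ n.choose 2 := Nat.mul_le_mul_left _ (h0' hne)
      _ = 2 ^ (n.choose 2 + 1) := e2.symm

/-- the structure is an iterated group extension of a small structure -/
theorem iter_sy {n : ℕ} (hn : Nat.card S.G = 2 ^ n) :
    ∃ (K : Subgroup S.G) (hneg : S.neg ∈ K) (k : ℕ), IsQuat (restrN S K hneg) ∧
      Nat.card K * numSy S ≤ 2 ^ (n.choose 2 + 3) ∧
      (S.neg = 1 → Nat.card K * numSy S ≤ 2 ^ (n.choose 2 + 1)) ∧
      2 ^ k * Nat.card K = Nat.card S.G ∧ Iso (ext^[k] (restrN S K hneg)) S := by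
  obtain ⟨B, hB⟩ := Pool.Agent.Y67.ET.t_BASIC S h
  have hneg : S.neg ∈ B := (hB _).2 fun hb => hb.2.1 rfl
  have hout : ∀ g : S.G, g ∉ B → Bi S g := by
    intro g hg
    by_contra hc
    exact hg ((hB g).2 hc)
  obtain ⟨k, hk, hi⟩ := chain _ S h inferInstance le_rfl B hneg hout
  obtain ⟨h1, h2⟩ := card_basic_sy h hn B hB
  exact ⟨B, hneg, k, (isQuat_restrN h B hneg hout).1, h1, h2, hk, hi⟩

end

/-- structures with at most sixteen elements -/
theorem elem_sixteen {S : QData} (h : IsQuat S) [Finite S.G] (hc : Nat.card S.G ≤ 16) : Elem S := by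
  refine elem_of_closed h fun H _ h8 => ?_
  have h1 := H.card_mul_index
  have h2 : Nat.card H < 4 := by
    by_contra hcon
    push Not at hcon
    have := Nat.mul_le_mul hcon h8
    omega
  refine canExt_of_stepTwo h (stepTwo_of_card h H ?_ h2)
  rintro rfl
  rw [Subgroup.index_top] at h8
  omega

section
variable {S : QData} {B : Type*} [AddCommGroup B] {β : S.G → S.G → B}

open Pool.Agent.N88.ETC

/-- symbols on a subgroup generated by two elements are functions of the quaternions -/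
theorem exists_fun_two (h : IsQuat S) (hB : Pool.Agent.N88.ETC.Add S β) {H : Subgroup S.G}
    {χ : S.G → S.G → ZMod 2} (hχ : Sy S H χ) (x y : S.G)
    (hHx : H = Subgroup.zpowers x ⊔ Subgroup.zpowers y) :
    ∃ Φ : B → ZMod 2, (∀ a b, Φ (a + b) = Φ a + Φ b) ∧
      ∀ z ∈ H, ∀ g, χ z g = Φ (β z g) := by
  have hx : x ∈ H := by
    rw [hHx]
    exact (le_sup_left : _ ≤ Subgroup.zpowers x ⊔ Subgroup.zpowers y) (Subgroup.mem_zpowers x)
  have hy : y ∈ H := by
    rw [hHx]
    exact (le_sup_right : _ ≤ Subgroup.zpowers x ⊔ Subgroup.zpowers y) (Subgroup.mem_zpowers y)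
  let R : AddSubgroup (B × ZMod 2) :=
    { carrier := {p | ∃ g g' : S.G, p = (β x g + β y g', χ x g + χ y g')}
      zero_mem' := by
        refine ⟨1, 1, ?_⟩
        rw [b_one hB, b_one hB, sy_zero h hB hχ hx (b_one hB x),
          sy_zero h hB hχ hy (b_one hB y), add_zero, add_zero]
        rfl
      add_mem' := by
        rintro p p' ⟨g, g', rfl⟩ ⟨k, k', rfl⟩
        refine ⟨g * k, g' * k', ?_⟩
        rw [hB.mul, hB.mul, hχ.2.1 x hx, hχ.2.1 y hy]
        exact Prod.ext (add_add_add_comm _ _ _ _) (add_add_add_comm _ _ _ _)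
      neg_mem' := by
        rintro p ⟨g, g', rfl⟩
        refine ⟨g, g', ?_⟩
        ext
        · exact neg_eq_iff_add_eq_zero.2 (hB.two _)
        · exact neg_eq_iff_add_eq_zero.2 (CharTwo.add_self_eq_zero _) }
  have hR : ((0 : B), (1 : ZMod 2)) ∉ R := by
    rintro ⟨g, g', e⟩
    have e3 : (0 : B) = β x g + β y g' := congrArg Prod.fst e
    have e4 : (1 : ZMod 2) = χ x g + χ y g' := congrArg Prod.snd e
    have e5 : β x g = β y g' := by
      have := hB.two (β y g')
      exact add_right_cancel (e3.symm.trans this.symm)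
    have e6 := sy_b h hB hχ hx hy e5
    rw [e6, CharTwo.add_self_eq_zero] at e4
    exact one_ne_zero e4
  obtain ⟨Φ, h1, h2⟩ := exists_hom hB.two R hR
  refine ⟨Φ, h1, ?_⟩
  let M : Subgroup S.G :=
    { carrier := {y | y ∈ H ∧ ∀ g, (β y g, χ y g) ∈ R}
      one_mem' := by
        refine ⟨H.one_mem, fun g => ?_⟩
        have e1 : β 1 g = 0 := by rw [b_comm h hB, b_one hB]
        rw [e1, sy_zero h hB hχ H.one_mem e1]
        exact R.zero_mem
      mul_mem' := by
        rintro c d ⟨hc, hc'⟩ ⟨hd, hd'⟩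
        refine ⟨H.mul_mem hc hd, fun g => ?_⟩
        rw [b_mul' h hB, hχ.1 c hc d hd]
        exact R.add_mem (hc' g) (hd' g)
      inv_mem' := by
        rintro c hc
        have e : c⁻¹ = c := inv_eq_of_mul_eq_one_left (h.exp2 c)
        rw [e]
        exact hc }
  have hM : H ≤ M := by
    conv_lhs => rw [hHx]
    rw [sup_le_iff, Subgroup.zpowers_le, Subgroup.zpowers_le]
    refine ⟨⟨hx, fun g => ⟨g, 1, ?_⟩⟩, hy, fun g => ⟨1, g, ?_⟩⟩
    · rw [b_one hB, sy_zero h hB hχ hy (b_one hB y), add_zero, add_zero]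
    · rw [b_one hB, sy_zero h hB hχ hx (b_one hB x), zero_add, zero_add]
  intro z hz g
  exact (h2 _ ((hM hz).2 g)).symm

/-- structures with at most thirty-two elements -/
theorem elem_thirtytwo (h : IsQuat S) (hB : Pool.Agent.N88.ETC.Add S β) [Finite S.G]
    (hc : Nat.card S.G ≤ 32) : Elem S := by
  refine elem_of_closed h fun H _ h8 => ?_
  have h1 := H.card_mul_index
  have hne : H ≠ ⊤ := by
    rintro rfl
    rw [Subgroup.index_top] at h8
    omega
  by_cases h2 : Nat.card H < 4
  · exact canExt_of_stepTwo h (stepTwo_of_card h H hne h2)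
  push Not at h2
  have h4 : Nat.card H = 4 := by
    by_contra hcon
    have : 5 ≤ Nat.card H := by omega
    have := Nat.mul_le_mul this h8
    omega
  obtain ⟨x, hx, hx1⟩ : ∃ x ∈ H, x ≠ 1 := by
    by_contra hcon
    push Not at hcon
    have : H = ⊥ := by
      rw [Subgroup.eq_bot_iff_forall]
      exact hcon
    rw [this, Subgroup.card_bot] at h4
    omega
  have hx' : (⊥ : Subgroup S.G) < Subgroup.zpowers x := by
    rw [bot_lt_iff_ne_bot]
    intro e
    rw [Subgroup.zpowers_eq_bot] at e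
    exact hx1 e
  have hb : (⊥ : Subgroup S.G).index = Nat.card S.G := Subgroup.index_bot
  have i1 := two_mul_index hx'
  have hxH : Subgroup.zpowers x ≤ H := by rwa [Subgroup.zpowers_le]
  obtain ⟨y, hy, hyx⟩ : ∃ y ∈ H, y ∉ Subgroup.zpowers x := by
    by_contra hcon
    push Not at hcon
    have e : H = Subgroup.zpowers x := le_antisymm hcon hxH
    have h5 : Nat.card (Subgroup.zpowers x) ≤ 2 := by
      have h6 : ((Subgroup.zpowers x : Subgroup S.G) : Set S.G) ⊆ {1, x} := by
        intro z hz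
        rcases mem_zp h hz with h7 | h7
        · exact Or.inl h7
        · exact Or.inr h7
      have h7 := Set.ncard_le_ncard h6 (Set.toFinite _)
      have h8 : ({1, x} : Set S.G).ncard ≤ 2 := Set.ncard_insert_le _ _ |>.trans (by simp)
      exact h7.trans h8
    rw [e] at h4
    omega
  have i2 := two_mul_index (lt_sup_zpowers hyx)
  have hle : Subgroup.zpowers x ⊔ Subgroup.zpowers y ≤ H := sup_le hxH (by rwa [Subgroup.zpowers_le])
  have heq : H = Subgroup.zpowers x ⊔ Subgroup.zpowers y := by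
    by_contra hcon
    have i3 := two_mul_index (lt_of_le_of_ne hle (fun e => hcon e.symm))
    rw [h4] at h1
    omega
  exact canExt_of_fun h hB (exists_out h8) fun χ hχ => exists_fun_two h hB hχ x y heq

end

end Pool.Agent.N88.FR
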