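import Pool.Agent.N88.FR.Elem

/-! # MP_d26ff6_al: quaternionic structures with many symbols

A symbol on a quaternionic structure `S = (G, -1, q)` is a biadditive map `χ : G × G → Z/2` which
vanishes where `q` does.  If `|G| = 2 ^ n`, the biadditive maps with `χ(a,-a) = 0` number at most
`2 ^ (n (n-1)/2 + 1)`, and at most `2 ^ (n (n-1)/2)` if `-1 = 1`; so this bounds the number `σ` of
symbols.

Theorem.  `S` is an iterated group extension of a structure `T` with
`|T| σ ≤ 2 ^ (n (n-1)/2 + 3)`, and `|T| σ ≤ 2 ^ (n (n-1)/2 + 1)` if `-1 = 1`.  In particular, `S` is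
of elementary type if `σ ≥ 2 ^ (n (n-1)/2 - 1)`, or if `-1 = 1` and `σ ≥ 2 ^ (n (n-1)/2 - 3)`; when
the quaternions lie in a group of exponent two in which `q` is additive,
`σ ≥ 2 ^ (n (n-1)/2 - 2)`, or `-1 = 1` and `σ ≥ 2 ^ (n (n-1)/2 - 4)`, suffices.

Outline. `T` is the structure on the basic part, the group of the elements which are not birigid.
Let `A` be the space of biadditive maps with `χ(a,-a) = 0`, and `R` the space of linear forms on `A`
which vanish at the symbols; `|A| = σ |R|`.  If `q(a,b) = 0` the evaluation `χ ↦ χ(a,b)` lies in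
`R`, and it is not zero unless `b ∈ {1,-a}` or `a = 1`.  So every `a ≠ 1` which is not rigid gives a
nonzero element `χ ↦ χ(a,b)` of `R`.  At most three elements `a` give the same element of `R`, by a
separation argument in `A`; hence there are at most `3 (|R| - 1)` elements which are not rigid, and
the basic part is bounded in terms of `|R|`. -/

set_option autoImplicit false

namespace Pool.Agent.Results.MP_d26ff6_al.ManySymbols

open Pool.Agent.H315R3.ETC

universe v

/-- `χ : G × G → Z/2` is a symbol on `S`: it is biadditive, and zero where `q` is zero -/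
def IsSymbol (S : QData) (χ : S.G → S.G → ZMod 2) : Prop :=
  (∀ a b c, χ (a * b) c = χ a c + χ b c) ∧ (∀ a b c, χ a (b * c) = χ a b + χ a c) ∧
    ∀ a b, S.q a b = S.zero → χ a b = 0

/-- the number of symbols on `S` -/
noncomputable def numSymbols (S : QData) : ℕ := Nat.card {χ : S.G → S.G → ZMod 2 // IsSymbol S χ}

theorem result (S : QData) (hS : IsQuat S) (n : ℕ) (hn : Nat.card S.G = 2 ^ n) :
    -- `S` is an iterated group extension of a small structure
    (∃ (T : QData) (k : ℕ), IsQuat T ∧ Iso (ext^[k] T) S ∧ 2 ^ k * Nat.card T.G = 2 ^ n ∧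
      Nat.card T.G * numSymbols S ≤ 2 ^ (n.choose 2 + 3) ∧
      (S.neg = 1 → Nat.card T.G * numSymbols S ≤ 2 ^ (n.choose 2 + 1))) ∧
    -- elementary type
    (2 ^ n.choose 2 ≤ 2 * numSymbols S → Elem S) ∧
    (S.neg = 1 → 2 ^ n.choose 2 ≤ 8 * numSymbols S → Elem S) ∧
    -- the quaternions lie in a group `B` of exponent two in which `q` is additive
    ((∃ (B : Type v) (_ : AddCommGroup B) (β : S.G → S.G → B), (∀ b : B, b + b = 0) ∧
        (∀ a b c, β a (b * c) = β a b + β a c) ∧
        (∀ a b c d, β a b = β c d ↔ S.q a b = S.q c d)) →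
      (2 ^ n.choose 2 ≤ 4 * numSymbols S → Elem S) ∧
      (S.neg = 1 → 2 ^ n.choose 2 ≤ 16 * numSymbols S → Elem S)) := by
  have hfin : Finite S.G := Nat.finite_of_card_ne_zero (by rw [hn]; positivity)
  have e3 : 2 ^ (n.choose 2 + 3) = 8 * 2 ^ n.choose 2 := by rw [pow_add]; ring
  have e1 : 2 ^ (n.choose 2 + 1) = 2 * 2 ^ n.choose 2 := by rw [pow_add]; ring
  have hs : numSymbols S = Pool.Agent.N88.FR.numSy S := rfl
  refine ⟨?_, fun h => ?_, fun hne h => ?_, ?_⟩
  · obtain ⟨K, hneg, k, h1, h2, h3, h4, h5⟩ := Pool.Agent.N88.FR.iter_sy hS hn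
    exact ⟨_, k, h1, h5, by rw [← hn]; exact h4, h2, h3⟩
  · refine Pool.Agent.N88.FR.elem_of_sy hS hn (Or.inl ?_)
    rw [e3, ← hs]
    omega
  · refine Pool.Agent.N88.FR.elem_of_sy hS hn (Or.inr ⟨hne, ?_⟩)
    rw [e1, ← hs]
    omega
  · rintro ⟨B, _, β, hB, hmul, hq⟩
    have hA : Pool.Agent.N88.ETC.Add S β := ⟨hB, hmul, hq⟩
    refine ⟨fun h => ?_, fun hne h => ?_⟩
    · refine Pool.Agent.N88.FR.elem_of_sy' hS hA hn (Or.inl ?_)
      rw [e3, ← hs]
      omega
    · refine Pool.Agent.N88.FR.elem_of_sy' hS hA hn (Or.inr ⟨hne, ?_⟩)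
      rw [e1, ← hs]
      omega

end Pool.Agent.Results.MP_d26ff6_al.ManySymbols
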