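import Pool.Agent.N88.FR.Count

/-! Quaternionic structures with many symbols: few elements are not birigid. -/

set_option autoImplicit false

namespace Pool.Agent.N88.FR

open Pool.Agent.H315R3.ETC Pool.Agent.TH673.VG Pool.Agent.Y920.ETC Pool.Agent.R19.QS

/-- the pair `x, y` is not one of the trivial pairs -/
def NT (S : QData) (x y : S.G) : Prop := x ≠ 1 ∧ y ≠ 1 ∧ y ≠ S.neg * x

section
variable {S : QData} (h : IsQuat S)

include h

lemma mulc (a b : S.G) : a * (a * b) = b := by rw [← mul_assoc, h.exp2, one_mul]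

lemma mem_zp {g x : S.G} (hx : x ∈ Subgroup.zpowers g) : x = 1 ∨ x = g := by
  obtain ⟨n, rfl⟩ := Subgroup.mem_zpowers_iff.1 hx
  rcases Int.even_or_odd' n with ⟨m, rfl | rfl⟩
  · left
    rw [zpow_mul, zpow_two, h.exp2, one_zpow]
  · right
    rw [zpow_add, zpow_mul, zpow_two, h.exp2, one_zpow, one_mul, zpow_one]

lemma mem_sup_z' {A : Subgroup S.G} {g x : S.G} (hx : x ∈ A ⊔ Subgroup.zpowers g) :
    x ∈ A ∨ g * x ∈ A := by
  obtain ⟨u, hu, v, hv, rfl⟩ := Subgroup.mem_sup.1 hx
  rcases mem_zp h hv with rfl | rfl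
  · left; rwa [mul_one]
  · right
    rw [mul_comm u, mulc h]
    exact hu

omit h in
/-- squares of characters with `l(-1) = 1` -/
lemma char_symbol {l : S.G → ZMod 2} (hl : ∀ a b, l (a * b) = l a + l b) (hn : l S.neg = 1) :
    (fun a b => l a * l b) ∈ Sym0 S := by
  refine ⟨fun a b c => ?_, fun a b c => ?_, fun a => ?_⟩
  · show l (a * b) * l c = l a * l c + l b * l c
    rw [hl]; ring
  · show l a * l (b * c) = l a * l b + l a * l c
    rw [hl]; ring
  · show l a * l (S.neg * a) = 0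
    rw [hl, hn]
    exact (by decide : ∀ u : ZMod 2, u * (1 + u) = 0) _

omit h in
/-- wedge products of characters, `-1 = 1` -/
lemma wedge_symbol {l f : S.G → ZMod 2} (hl : ∀ a b, l (a * b) = l a + l b)
    (hf : ∀ a b, f (a * b) = f a + f b) (hn : S.neg = 1) :
    (fun a b => l a * f b + f a * l b) ∈ Sym0 S := by
  refine ⟨fun a b c => ?_, fun a b c => ?_, fun a => ?_⟩
  · show l (a * b) * f c + f (a * b) * l c = (l a * f c + f a * l c) + (l b * f c + f b * l c)
    rw [hl, hf]; ring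
  · show l a * f (b * c) + f a * l (b * c) = (l a * f b + f a * l b) + (l a * f c + f a * l c)
    rw [hl, hf]; ring
  · show l a * f (S.neg * a) + f a * l (S.neg * a) = 0
    rw [hn, one_mul]
    exact (by decide : ∀ u v : ZMod 2, u * v + v * u = 0) _ _

/-- separation, `-1 ≠ 1` -/
lemma sep_ne (hne : S.neg ≠ 1) {x y z : S.G} (hxy : NT S x y) (h1 : z ≠ S.neg) (h2 : z ≠ x)
    (h3 : z ≠ y) (h4 : z ≠ S.neg * x * y) :
    ∃ χ ∈ Sym0 S, χ x y = 1 ∧ ∀ w, χ z w = 0 := by
  obtain ⟨hx, hy, hxy'⟩ := hxy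
  have hmem : S.neg ∉ Subgroup.zpowers (S.neg * x) ⊔ Subgroup.zpowers (S.neg * y) ⊔
      Subgroup.zpowers z := by
    intro hc
    have base : ∀ u : S.G, u ∈ Subgroup.zpowers (S.neg * x) ⊔ Subgroup.zpowers (S.neg * y) →
        u = 1 ∨ u = S.neg * x ∨ u = S.neg * y ∨ u = x * y := by
      intro u hu
      rcases mem_sup_z' h hu with h5 | h5
      · rcases mem_zp h h5 with h6 | h6
        · exact Or.inl h6
        · exact Or.inr (Or.inl h6)
      · rcases mem_zp h h5 with h6 | h6
        · right; right; left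
          rw [← mulc h (S.neg * y) u, h6, mul_one]
        · right; right; right
          rw [← mulc h (S.neg * y) u, h6, mul_mul_mul_comm, h.exp2, one_mul, mul_comm]
    rcases mem_sup_z' h hc with h5 | h5
    · rcases base _ h5 with h6 | h6 | h6 | h6
      · exact hne h6
      · exact hx (by simpa using h6)
      · exact hy (by simpa using h6)
      · apply hxy'
        rw [h6, mul_comm x y, mul_assoc, h.exp2, mul_one]
    · rcases base _ h5 with h6 | h6 | h6 | h6
      · apply h1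
        rw [← mulc h z S.neg, h6, mul_one]
      · rw [mul_comm z] at h6
        exact h2 (mul_left_cancel h6)
      · rw [mul_comm z] at h6
        exact h3 (mul_left_cancel h6)
      · apply h4
        rw [mul_assoc, ← h6, mul_comm z, mulc h]
  obtain ⟨l, hl, hA, hn⟩ := exists_char h hmem 1
  have hlx : l x = 1 := by
    have h5 := hA (S.neg * x) (Subgroup.mem_sup_left (Subgroup.mem_sup_left
      (Subgroup.mem_zpowers _)))
    rw [hl, hn] at h5
    exact (by decide : ∀ u : ZMod 2, 1 + u = 0 → u = 1) _ h5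
  have hly : l y = 1 := by
    have h5 := hA (S.neg * y) (Subgroup.mem_sup_left (Subgroup.mem_sup_right
      (Subgroup.mem_zpowers _)))
    rw [hl, hn] at h5
    exact (by decide : ∀ u : ZMod 2, 1 + u = 0 → u = 1) _ h5
  have hlz : l z = 0 := hA z (Subgroup.mem_sup_right (Subgroup.mem_zpowers _))
  refine ⟨_, char_symbol hl hn, ?_, fun w => ?_⟩
  · show l x * l y = 1
    rw [hlx, hly, one_mul]
  · show l z * l w = 0
    rw [hlz, zero_mul]

/-- separation, `-1 = 1` -/
lemma sep_eq (hne : S.neg = 1) {x y z : S.G} (hxy : NT S x y) (h2 : z ≠ x)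
    (h3 : z ≠ y) (h4 : z ≠ S.neg * x * y) :
    ∃ χ ∈ Sym0 S, χ x y = 1 ∧ ∀ w, χ z w = 0 := by
  obtain ⟨hx, hy, hxy'⟩ := hxy
  rw [hne, one_mul] at hxy' h4
  have key : ∀ x y : S.G, x ≠ 1 → x ≠ y → z ≠ x → z ≠ x * y →
      ∃ l : S.G → ZMod 2, (∀ a b, l (a * b) = l a + l b) ∧ l x = 1 ∧ l y = 0 ∧ l z = 0 := by
    intro x y hx hxy hzx hzxy
    have hmem : x ∉ Subgroup.zpowers y ⊔ Subgroup.zpowers z := by
      intro hc
      rcases mem_sup_z' h hc with h5 | h5 <;> rcases mem_zp h h5 with h6 | h6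
      · exact hx h6
      · exact hxy h6
      · apply hzx
        rw [← mulc h z x, h6, mul_one]
      · apply hzxy
        rw [← h6, mul_comm z, mulc h]
    obtain ⟨l, hl, hA, hn⟩ := exists_char h hmem 1
    exact ⟨l, hl, hn, hA y (Subgroup.mem_sup_left (Subgroup.mem_zpowers _)),
      hA z (Subgroup.mem_sup_right (Subgroup.mem_zpowers _))⟩
  obtain ⟨l, hl, l1, l2, l3⟩ := key x y hx (Ne.symm hxy') h2 h4
  obtain ⟨f, hf, f1, f2, f3⟩ := key y x hy hxy' h3 (by rwa [mul_comm])
  refine ⟨_, wedge_symbol hl hf hne, ?_, fun w => ?_⟩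
  · show l x * f y + f x * l y = 1
    rw [l1, l2, f1, f2]; decide
  · show l z * f w + f z * l w = 0
    rw [l3, f3, zero_mul, zero_mul, add_zero]

lemma sep {x y z : S.G} (hxy : NT S x y) (h1 : z ≠ S.neg) (h2 : z ≠ x)
    (h3 : z ≠ y) (h4 : z ≠ S.neg * x * y) :
    ∃ χ ∈ Sym0 S, χ x y = 1 ∧ ∀ w, χ z w = 0 := by
  by_cases hne : S.neg = 1
  · exact sep_eq h hne hxy h2 h3 h4
  · exact sep_ne h hne hxy h1 h2 h3 h4

lemma ne_zero {x y : S.G} (hxy : NT S x y) : ∃ χ ∈ Sym0 S, χ x y = 1 := by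
  have hxy' := hxy
  obtain ⟨hx, hy, hn⟩ := hxy'
  have h4 : (1 : S.G) ≠ S.neg * x * y := by
    intro hc
    apply hn
    rw [← mul_one (S.neg * x), hc, mulc h]
  by_cases hne : S.neg = 1
  · obtain ⟨χ, h1, h2, -⟩ := sep_eq h hne hxy (z := 1) (Ne.symm hx) (Ne.symm hy) h4
    exact ⟨χ, h1, h2⟩
  · obtain ⟨χ, h1, h2, -⟩ := sep_ne h hne hxy (z := 1) (Ne.symm hne) (Ne.symm hx) (Ne.symm hy) h4
    exact ⟨χ, h1, h2⟩

end

section
variable {S : QData}

/-- evaluation -/
def ev (S : QData) (x y : S.G) : Sym0 S →ₗ[ZMod 2] ZMod 2 where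
  toFun := fun χ => χ.1 x y
  map_add' := fun _ _ => rfl
  map_smul' := fun _ _ => rfl

/-- evaluation at an orthogonal pair, as a functional on the quotient by the symbols -/
noncomputable def evq (x y : S.G) (hxy : S.q x y = S.zero) :
    (Sym0 S ⧸ Sym S) →ₗ[ZMod 2] ZMod 2 :=
  (Sym S).liftQ (ev S x y) (by
    intro χ hχ
    exact hχ x y hxy)

lemma evq_mk (x y : S.G) (hxy : S.q x y = S.zero) (χ : Sym0 S) :
    evq x y hxy (Submodule.Quotient.mk χ) = χ.1 x y := rfl

/-- the elements which are not rigid -/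
def NR (S : QData) : Set S.G := {x | x ≠ 1 ∧ ∃ y, S.q x y = S.zero ∧ NT S x y}

variable (h : IsQuat S) [Finite S.G]

include h

theorem card_NR :
    (NR S).ncard + 3 ≤ 3 * Nat.card (Sym0 S ⧸ Sym S) := by
  classical
  have hfin : Finite (S.G → S.G → ZMod 2) := inferInstance
  have hfin0 : Finite (Sym0 S) := inferInstance
  have hfinq : Finite (Sym0 S ⧸ Sym S) :=
    Finite.of_surjective _ (Submodule.Quotient.mk_surjective (Sym S))
  let Q := Sym0 S ⧸ Sym S
  have hcard : Nat.card (Q →ₗ[ZMod 2] ZMod 2) = Nat.card Q := by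
    have h1 := Module.natCard_eq_pow_finrank (K := ZMod 2) (V := Q)
    have h2 := Module.natCard_eq_pow_finrank (K := ZMod 2) (V := Module.Dual (ZMod 2) Q)
    rw [Subspace.dual_finrank_eq] at h2
    exact h2.trans h1.symm
  have hfd : Finite (Q →ₗ[ZMod 2] ZMod 2) := by
    refine Nat.finite_of_card_ne_zero ?_
    rw [hcard]
    exact Nat.card_pos.ne'
  have hft : Fintype (Q →ₗ[ZMod 2] ZMod 2) := Fintype.ofFinite _
  have hftG : Fintype S.G := Fintype.ofFinite _
  choose! e he1 he2 using fun (x : S.G) (hx : x ∈ NR S) => hx.2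
  let F : S.G → (Q →ₗ[ZMod 2] ZMod 2) := fun x =>
    if hx : S.q x (e x) = S.zero then evq x (e x) hx else 0
  have hF : ∀ x ∈ NR S, ∀ χ : Sym0 S, F x (Submodule.Quotient.mk χ) = χ.1 x (e x) := by
    intro x hx χ
    have : F x = evq x (e x) (he1 x hx) := dif_pos (he1 x hx)
    rw [this, evq_mk]
  have hF0 : ∀ x ∈ NR S, F x ≠ 0 := by
    intro x hx hc
    obtain ⟨χ, hχ, h1⟩ := ne_zero h (he2 x hx)
    have h2 := hF x hx ⟨χ, hχ⟩
    rw [hc, LinearMap.zero_apply] at h2
    exact one_ne_zero (h1.symm.trans h2.symm)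
  -- the fibres
  have hsub : ∀ x ∈ NR S, ∀ z ∈ NR S, F z = F x →
      z = S.neg ∨ z = x ∨ z = e x ∨ z = S.neg * x * e x := by
    intro x hx z hz hzx
    by_contra hc
    push Not at hc
    obtain ⟨χ, hχ, h1, h2⟩ := sep h (he2 x hx) hc.1 hc.2.1 hc.2.2.1 hc.2.2.2
    have h3 := hF x hx ⟨χ, hχ⟩
    have h4 := hF z hz ⟨χ, hχ⟩
    rw [hzx, h3] at h4
    exact one_ne_zero ((h1.symm.trans h4).trans (h2 _))
  let s : Finset S.G := Finset.univ.filter fun x => x ∈ NR S
  have hs : ∀ x, x ∈ s ↔ x ∈ NR S := by simp [s]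
  have hfib : ∀ φ ∈ s.image F, (s.filter fun x => F x = φ).card ≤ 3 := by
    intro φ hφ
    by_cases hneg : S.neg ∈ s.filter fun x => F x = φ
    · rw [Finset.mem_filter, hs] at hneg
      obtain ⟨hn1, hn2⟩ := hneg
      have h1 : (s.filter fun x => F x = φ) ⊆ {S.neg, e S.neg} := by
        intro z hz
        rw [Finset.mem_filter, hs] at hz
        rcases hsub _ hn1 z hz.1 (hz.2.trans hn2.symm) with h2 | h2 | h2 | h2
        · simp [h2]
        · simp [h2]
        · simp [h2]
        · rw [h.exp2, one_mul] at h2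
          simp [h2]
      exact (Finset.card_le_card h1).trans ((Finset.card_le_two).trans (by norm_num))
    · obtain ⟨x, hx, rfl⟩ := Finset.mem_image.1 hφ
      have h1 : (s.filter fun z => F z = F x) ⊆ {x, e x, S.neg * x * e x} := by
        intro z hz
        have hz' := hz
        rw [Finset.mem_filter, hs] at hz'
        rcases hsub x ((hs x).1 hx) z hz'.1 hz'.2 with h2 | h2 | h2 | h2
        · exact absurd (h2 ▸ hz) hneg
        · simp [h2]
        · simp [h2]
        · simp [h2]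
      exact (Finset.card_le_card h1).trans Finset.card_le_three
  have h1 := Finset.card_le_mul_card_image s 3 hfib
  have h2 : (s.image F).card + 1 ≤ Nat.card Q := by
    have h3 : s.image F ⊆ Finset.univ.erase 0 := by
      intro φ hφ
      obtain ⟨x, hx, rfl⟩ := Finset.mem_image.1 hφ
      exact Finset.mem_erase.2 ⟨hF0 x ((hs x).1 hx), Finset.mem_univ _⟩
    have h4 := Finset.card_le_card h3
    rw [Finset.card_erase_of_mem (Finset.mem_univ _), Finset.card_univ,
      ← Nat.card_eq_fintype_card, hcard] at h4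
    have h5 : 0 < Nat.card Q := Nat.card_pos
    omega
  have h6 : (NR S).ncard = s.card := by
    rw [← Set.ncard_coe_finset]
    congr 1
    ext x
    exact (hs x).symm
  rw [h6]
  show _ ≤ 3 * Nat.card Q
  omega

end

end Pool.Agent.N88.FR
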